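import Mathlib
import Pool.Agent.R508.CovTable

set_option autoImplicit false

/-!
# A block of `50000` consecutive integers all of which are `50000`-covered

We give one residue class modulo `p ^ 2` for each prime `p < 25000`, and one residue class modulo `p` for
each prime `25000 < p < 50000` (the table in `Pool.Agent.R508.CovTable`), such that every one of `50000`
consecutive positions lies in the classes of two distinct primes, or in a class modulo the square of a prime
`p < 25000`. The table was found by a computer search: the odd primes up to about `2500` all have the
class of one common centre, the prime `2` has the other class modulo `2`, and the classes of the remaining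
primes were found by simulated annealing and tabu search. That the table works is checked by the kernel
(`table_chk`), by a sieve with bit masks. The Chinese remainder theorem gives the block.
-/

namespace Pool.Agent.Results.MP_23c930_nt.Block50000

/-- **A block of length `50000` in which every member is covered.** There is an `m` such that each of
`m + 1, ..., m + 50000` is divisible by two distinct primes below `50000`, or by the square of a prime
below `50000 / 2`. -/
theorem result : ∃ m : ℕ, ∀ i : ℕ, 1 ≤ i → i ≤ 50000 →
    (∃ p q : ℕ, p.Prime ∧ q.Prime ∧ p ≠ q ∧ p < 50000 ∧ q < 50000 ∧ p * q ∣ m + i) ∨
    (∃ p : ℕ, p.Prime ∧ 2 * p < 50000 ∧ p ^ 2 ∣ m + i) :=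
  Pool.Agent.R508.Cov.exists_block 50000 _ Pool.Agent.R508.Cov.table_chk

end Pool.Agent.Results.MP_23c930_nt.Block50000
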